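import Pool.Agent.Work.MP_055a27_an.Thr.Stmts
import Pool.Agent.Work.MP_055a27_an.TestF

/-!
# The critical aperture of a weight: definitions and statements of the items
-/

open MeasureTheory Set Filter Topology Complex Metric
open scoped ENNReal NNReal

namespace Pool.Agent.Work.MP_055a27_an.Crit

open Pool.Agent.Work.MP_055a27_an.Thr (hlM StHL StPois StPL StGrow StBd)

/-- The logarithm of the weight. -/
noncomputable def lg (U : ℝ → ℝ) (t : ℝ) : ℝ := Real.log (U t)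

/-- The supremum of `exp (- P[log U])` over the points `(z, y)` whose shadow
`[z - μ y, z + μ y]` is contained in `[a, c]` and has `x` in its interior. -/
noncomputable def cc (μ a c : ℝ) (U : ℝ → ℝ) (x : ℝ) : ℝ≥0∞ :=
  ⨆ (z : ℝ) (y : ℝ) (_ : 0 < y ∧ |x - z| < μ * y ∧ a ≤ z - μ * y ∧ z + μ * y ≤ c),
    ENNReal.ofReal (Real.exp (-poisson (lg U) z y))

/-- The Carleson type condition with aperture `μ`. -/
def CC (μ : ℝ) (U : ℝ → ℝ) : Prop := ∃ C : ℝ≥0, ∀ a c : ℝ, a < c →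
  ∫⁻ x in Icc a c, cc μ a c U x * ENNReal.ofReal (U x) ≤ C * ENNReal.ofReal (c - a)

/-- Poisson integral of an extended non-negative function (without the factor `1 / π`). -/
noncomputable def Pk (k : ℝ → ℝ≥0∞) (z y : ℝ) : ℝ≥0∞ :=
  ∫⁻ t, ENNReal.ofReal (y / ((z - t) ^ 2 + y ^ 2)) * k t

/-- The function `N_b(f) U ^ (1 / p)`. -/
noncomputable def hU (U : ℝ → ℝ) (b p : ℝ) (f : ℝ → ℝ) (t : ℝ) : ℝ≥0∞ :=
  ntMax b f t * ENNReal.ofReal (Real.exp (lg U t / p))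

/-- The truncated logarithm. -/
noncomputable def lgT (U : ℝ → ℝ) (M : ℝ) (t : ℝ) : ℝ := max (lg U t) (-M)

/-- The test function: an outer function of modulus `max (U, exp (-M)) ^ (-1 / p)`, shifted by
`ε`, times a power localised at `[x0 - β, x0 + β]`. -/
noncomputable def tF2 (U : ℝ → ℝ) (M p ε x0 β : ℝ) (k : ℕ) (w : ℂ) : ℂ :=
  Complex.exp (-(schw (lgT U M) (w + ε * I)) / p) * tF x0 β k w

/-- Smirnov type maximum principle, bounded continuous exponent. -/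
def StSm1 : Prop := ∀ (g A B M : ℝ) (G : ℂ → ℂ) (u : ℝ → ℝ), 0 < g → g < 1 →
  (∀ ζ : ℂ, 0 ≤ ζ.im → DifferentiableAt ℂ G ζ) →
  (∀ ζ : ℂ, 0 ≤ ζ.im → ‖G ζ‖ ≤ A * (1 + ‖ζ‖) ^ 2 * Real.exp (B * ‖ζ‖ ^ g)) →
  Continuous u → (∀ t, |u t| ≤ M) → ∀ s y : ℝ, 0 < y →
    ENNReal.ofReal (‖G (s + y * I)‖ * Real.exp (poisson u s y)) ≤
      ∫⁻ t : ℝ, ENNReal.ofReal (y / ((s - t) ^ 2 + y ^ 2)) *
        ENNReal.ofReal (‖G t‖ * Real.exp (u t))

/-- Smirnov type maximum principle, bounded measurable exponent. -/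
def StSm2 : Prop := ∀ (g A B M : ℝ) (G : ℂ → ℂ) (u : ℝ → ℝ), 0 < g → g < 1 →
  (∀ ζ : ℂ, 0 ≤ ζ.im → DifferentiableAt ℂ G ζ) →
  (∀ ζ : ℂ, 0 ≤ ζ.im → ‖G ζ‖ ≤ A * (1 + ‖ζ‖) ^ 2 * Real.exp (B * ‖ζ‖ ^ g)) →
  AEStronglyMeasurable u volume → (∀ t, |u t| ≤ M) → ∀ s y : ℝ, 0 < y →
    ENNReal.ofReal (‖G (s + y * I)‖ * Real.exp (poisson u s y)) ≤
      ∫⁻ t : ℝ, ENNReal.ofReal (y / ((s - t) ^ 2 + y ^ 2)) *
        ENNReal.ofReal (‖G t‖ * Real.exp (u t))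

/-- Smirnov type maximum principle, admissible exponent. -/
def StSm : Prop := ∀ (g A B : ℝ) (G : ℂ → ℂ) (v : ℝ → ℝ), 0 < g → g < 1 →
  (∀ ζ : ℂ, 0 ≤ ζ.im → DifferentiableAt ℂ G ζ) →
  (∀ ζ : ℂ, 0 ≤ ζ.im → ‖G ζ‖ ≤ A * (1 + ‖ζ‖) ^ 2 * Real.exp (B * ‖ζ‖ ^ g)) →
  Admissible v → ∀ s y : ℝ, 0 < y →
    ENNReal.ofReal (‖G (s + y * I)‖ * Real.exp (poisson v s y)) ≤
      ∫⁻ t : ℝ, ENNReal.ofReal (y / ((s - t) ^ 2 + y ^ 2)) *
        ENNReal.ofReal (‖G t‖ * Real.exp (v t))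

/-- The key estimate for the gradient, general weight. -/
def StKEG : Prop := ∀ b p : ℝ, 0 < b → 0 < p → ∃ C : ℝ, 0 < C ∧
  ∀ U : ℝ → ℝ, Admissible (lg U) → ∀ f : ℝ → ℝ, Admissible f →
  ∀ s y a : ℝ, 0 < a → a < y →
    ENNReal.ofReal ‖dschw f (s + y * I)‖ ≤
      ENNReal.ofReal (C / a * Real.exp (-poisson (lg U) s (y - a) / p)) *
        Pk (hU U b p f) s (y - a)

/-- Decomposition of an open set of finite measure into intervals. -/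
def StComps : Prop := ∀ O : Set ℝ, IsOpen O → volume O ≠ ∞ →
  ∃ (ι : Type) (_ : Countable ι) (a c : ι → ℝ), (∀ i, a i < c i) ∧
    O = ⋃ i, Ioo (a i) (c i) ∧ Pairwise (fun i j => Disjoint (Ioo (a i) (c i)) (Ioo (a j) (c j))) ∧
    ∀ r s : ℝ, r < s → Ioo r s ⊆ O → ∃ i, Ioo r s ⊆ Ioo (a i) (c i)

/-- Continuity of the Poisson integral. -/
def StPCont : Prop := ∀ v : ℝ → ℝ, Admissible v →
  ContinuousOn (fun q : ℝ × ℝ => poisson v q.1 q.2) {q | 0 < q.2}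

/-- The Carleson embedding. -/
def StCar : Prop := ∀ (μ p : ℝ) (U : ℝ → ℝ), 0 < μ → 1 < p → IsWeight U → Admissible (lg U) →
  CC μ U → ∃ C : ℝ≥0, ∀ k : ℝ → ℝ≥0∞, AEMeasurable k volume →
    ∫⁻ x, (⨆ (z : ℝ) (y : ℝ) (_ : 0 < y ∧ |x - z| < μ * y),
        ENNReal.ofReal (Real.exp (-poisson (lg U) z y)) * (Pk k z y) ^ p) *
        ENNReal.ofReal (U x) ≤ C * ∫⁻ x, (k x) ^ p

/-- Change of aperture for general weights. -/
def StAperG : Prop := ∀ (μ b b' p : ℝ) (U : ℝ → ℝ), 0 < b → 0 < b' → b' < μ → 1 < p →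
  IsWeight U → (∀ᵐ x, 0 < U x) → Admissible (lg U) → CC μ U →
  ∃ C : ℝ≥0, ∀ f : ℝ → ℝ, Admissible f →
    ∫⁻ x, (ntMax b' f x) ^ p * ENNReal.ofReal (U x) ≤
      C * ∫⁻ x, (ntMax b f x) ^ p * ENNReal.ofReal (U x)

/-- Sufficiency. -/
def StSuff : Prop := ∀ (lam μ b p : ℝ) (U : ℝ → ℝ), 0 < lam → lam < μ → 0 < b → 1 < p →
  IsWeight U → (∀ᵐ x, 0 < U x) → Admissible (lg U) → WeakAInfty U → CC μ U → Star lam b p U

/-- The maximal function of larger aperture is bounded by the maximal function and the area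
function. -/
def StNS : Prop := ∀ lam lam2 b : ℝ, 0 < lam2 → lam2 < lam → 0 < b → ∃ C : ℝ≥0,
  ∀ f : ℝ → ℝ, Admissible f → ∀ x : ℝ, ntMax lam2 f x ≤ ntMax b f x + C * areaFn lam f x

/-- The test functions are admissible. -/
def StTF : Prop := ∀ (U : ℝ → ℝ) (M p ε x0 β : ℝ) (k : ℕ), Admissible (lg U) → 0 < p → 0 < ε →
  0 < β →
  Admissible (fun t : ℝ => (tF2 U M p ε x0 β k t).re) ∧
  Admissible (fun t : ℝ => (tF2 U M p ε x0 β k t).im) ∧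
  (∀ z y : ℝ, 0 < y →
    poisson (fun t : ℝ => (tF2 U M p ε x0 β k t).re) z y = (tF2 U M p ε x0 β k (z + y * I)).re ∧
    poisson (fun t : ℝ => (tF2 U M p ε x0 β k t).im) z y = (tF2 U M p ε x0 β k (z + y * I)).im ∧
    ‖tF2 U M p ε x0 β k (z + y * I)‖ =
      Real.exp (-poisson (lgT U M) z (y + ε) / p) * (β / ‖(z : ℂ) + y * I - x0 + β * I‖) ^ k)

/-- Upper bound for the test functions. -/
def StTFUp : Prop := ∀ (b p : ℝ) (U : ℝ → ℝ), 0 < b → 0 < p → IsWeight U → Admissible (lg U) →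
  CC b U → ∃ (C : ℝ≥0) (k : ℕ), ∀ M ε x0 β : ℝ, 0 < ε → ε ≤ β →
    ∫⁻ x, (ntMax b (fun t : ℝ => (tF2 U M p ε x0 β k t).re) x) ^ p * ENNReal.ofReal (U x) ≤
      C * ENNReal.ofReal β ∧
    ∫⁻ x, (ntMax b (fun t : ℝ => (tF2 U M p ε x0 β k t).im) x) ^ p * ENNReal.ofReal (U x) ≤
      C * ENNReal.ofReal β

/-- Necessity. -/
def StNec : Prop := ∀ (lam μ b p : ℝ) (U : ℝ → ℝ), 0 < b → b < lam → 0 < p → 0 < μ → μ < lam →
  IsWeight U → Admissible (lg U) → CC b U → Star lam b p U → CC μ U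

/-- The weights `exp (|x| ^ g)` satisfy the Carleson condition for `μ < tan (π g / 2)`. -/
def StEx : Prop := ∀ g μ : ℝ, 0 < g → g < 1 → 0 < μ → μ < Thr.T g →
  Admissible (lg (Thr.Ug g)) ∧ CC μ (Thr.Ug g)

end Pool.Agent.Work.MP_055a27_an.Crit
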