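import Pool.Agent.Work.MP_055a27_an.Crit.Stmts

/-!
# The critical aperture of a weight: improvement of the aperture on the right side
-/

open MeasureTheory Set Filter Topology Complex Metric
open scoped ENNReal NNReal

namespace Pool.Agent.Work.MP_055a27_an.Crit

/-- The non-tangential maximal function of a function in the upper half plane. For `β = 0` it is
the vertical maximal function. -/
noncomputable def NTc (F : ℂ → ℂ) (β x : ℝ) : ℝ≥0∞ :=
  ⨆ (z : ℝ) (y : ℝ) (_ : 0 < y ∧ |x - z| ≤ β * y), ENNReal.ofReal ‖F (z + y * I)‖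

/-- Differentiable and bounded on the closed upper half plane. -/
def Nice (F : ℂ → ℂ) : Prop :=
  (∀ w : ℂ, 0 ≤ w.im → DifferentiableAt ℂ F w) ∧ ∃ M : ℝ, ∀ w : ℂ, 0 ≤ w.im → ‖F w‖ ≤ M

/-- The interpolation parameter. -/
noncomputable def tt (b b0 b2 : ℝ) : ℝ :=
  (Real.arctan b0 - Real.arctan b) / (Real.arctan b2 - Real.arctan b)

/-- The integral of the maximal function against the weight. -/
noncomputable def NI (U : ℝ → ℝ) (F : ℂ → ℂ) (β p : ℝ) : ℝ≥0∞ :=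
  ∫⁻ x, (NTc F β x) ^ p * ENNReal.ofReal (U x)

/-- The test function with the additional factor `exp (-V / p)`. -/
noncomputable def tV (U V : ℝ → ℝ) (M p ε x0 β : ℝ) (k : ℕ) (w : ℂ) : ℂ :=
  Complex.exp (-(schw V (w + ε * I)) / p) * tF2 U M p ε x0 β k w

/-- Three lines theorem in the aperture angle. -/
def StTL : Prop := ∀ (F : ℂ → ℂ) (b b0 b2 : ℝ), Nice F → 0 ≤ b → b < b0 → b0 < b2 → ∀ x : ℝ,
  NTc F b0 x ≤ (NTc F b x) ^ (1 - tt b b0 b2) * (NTc F b2 x) ^ (tt b b0 b2)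

/-- Measurability. -/
def StNM : Prop := ∀ (F : ℂ → ℂ) (β : ℝ), Nice F → 0 ≤ β → Measurable (NTc F β)

/-- From the inequality of the problem to maximal functions of analytic functions. -/
def StN : Prop := ∀ (lam lam2 b p : ℝ) (U : ℝ → ℝ), 0 < lam2 → lam2 < lam → 0 < b → 0 < p →
  IsWeight U → Star lam b p U → ∃ C : ℝ≥0, ∀ F : ℂ → ℂ, Nice F →
    NI U F lam2 p ≤ C * NI U F b p

/-- Improvement of the aperture on the right side. -/
def StImp : Prop := ∀ (lam lam2 b p : ℝ) (U : ℝ → ℝ), 0 < b → b < lam2 → lam2 < lam → 0 < p →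
  IsWeight U → Star lam b p U → ∃ C : ℝ≥0, ∀ F : ℂ → ℂ, Nice F → NI U F b p ≠ ∞ →
    NI U F lam2 p ≤ C * NI U F 0 p

/-- Auxiliary exponents. -/
def StVn : Prop := ∀ (μ b : ℝ) (U : ℝ → ℝ), 0 < μ → 0 < b → IsWeight U → Admissible (lg U) →
  CC μ U → ∃ V : ℕ → ℝ → ℝ, (∀ n, Admissible (V n)) ∧ (∀ n t, 0 ≤ V n t) ∧
    (∀ z y : ℝ, 0 < y → Tendsto (fun n => poisson (V n) z y) atTop (𝓝 0)) ∧
    ∀ n, ∫⁻ x, (⨆ (z : ℝ) (y : ℝ) (_ : 0 < y ∧ |x - z| ≤ b * y),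
      ENNReal.ofReal (Real.exp (-poisson (V n) z y))) * ENNReal.ofReal (U x) ≠ ∞

/-- Properties of the test functions. -/
def StTV : Prop := ∀ (U V : ℝ → ℝ) (M p ε x0 β : ℝ) (k : ℕ), Admissible (lg U) → Admissible V →
  (∀ t, 0 ≤ V t) → 0 < p → 0 < ε → 0 < β →
  Nice (tF2 U M p ε x0 β k) ∧ Nice (tV U V M p ε x0 β k) ∧
  (∀ z y : ℝ, 0 < y → ‖tV U V M p ε x0 β k (z + y * I)‖ =
    Real.exp (-poisson V z (y + ε) / p) * ‖tF2 U M p ε x0 β k (z + y * I)‖) ∧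
  (∀ z y : ℝ, 0 < y → ‖tF2 U M p ε x0 β k (z + y * I)‖ ≤ Real.exp (M / p))

/-- From the test functions to the Carleson condition. -/
def StNecB : Prop := ∀ (lam2 μ p : ℝ) (U : ℝ → ℝ), 0 < p → 0 < μ → μ < lam2 → IsWeight U →
  Admissible (lg U) →
  (∃ (C : ℝ≥0) (k : ℕ), ∀ M ε x0 β : ℝ, 0 < ε → ε ≤ β →
    NI U (tF2 U M p ε x0 β k) lam2 p ≤ C * ENNReal.ofReal β) → CC μ U

/-- The Carleson condition is monotone in the aperture. -/
def StMono : Prop := ∀ (μ μ' : ℝ) (U : ℝ → ℝ), 0 < μ' → μ' ≤ μ → CC μ U → CC μ' U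

/-- Necessity, when some aperture satisfies the Carleson condition. -/
def StNec2 : Prop := ∀ (lam μ μ0 b p : ℝ) (U : ℝ → ℝ), 0 < b → b < lam → 0 < p → 0 < μ0 →
  0 < μ → μ < lam → IsWeight U → Admissible (lg U) → CC μ0 U → Star lam b p U → CC μ U

end Pool.Agent.Work.MP_055a27_an.Crit
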