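import Pool.Agent.Work.MP_055a27_an.Crit.Stmts

/-!
# Upper bound for the maximal function of the test functions
-/

set_option autoImplicit false

open MeasureTheory Set Filter Topology Complex
open scoped ENNReal NNReal

namespace Pool.Agent.Work.MP_055a27_an.Crit

namespace TFUp

lemma integrable_pois {v : ℝ → ℝ} (hv : Admissible v) {z y : ℝ} (hy : 0 < y) :
    Integrable (fun t : ℝ => y * v t / ((z - t) ^ 2 + y ^ 2)) volume := by
  have hw : y ≤ ((z : ℂ) + y * I).im := by simp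
  set K : ℝ := 2 + (1 + 2 * ‖(z : ℂ) + y * I‖ ^ 2) / y ^ 2 with hK
  have hb : ∀ t : ℝ, ‖y * (1 + t ^ 2) / ((z - t) ^ 2 + y ^ 2)‖ ≤ y * K := by
    intro t
    have h1 := one_add_sq_le hy hw t
    have h2 : ‖(z : ℂ) + y * I - t‖ ^ 2 = (z - t) ^ 2 + y ^ 2 := by
      rw [← Complex.normSq_eq_norm_sq, Complex.normSq_apply]
      simp
      ring
    rw [h2] at h1
    have h3 : 0 < (z - t) ^ 2 + y ^ 2 := by positivity
    rw [Real.norm_eq_abs, abs_of_nonneg (by positivity), div_le_iff₀ h3, mul_assoc]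
    exact mul_le_mul_of_nonneg_left h1 hy.le
  have h4 : Integrable (fun t : ℝ => v t / (1 + t ^ 2) *
      (y * (1 + t ^ 2) / ((z - t) ^ 2 + y ^ 2))) volume := by
    refine Integrable.mul_bdd (c := y * K) hv ?_ (Eventually.of_forall hb)
    apply Measurable.aestronglyMeasurable
    fun_prop
  refine h4.congr (Eventually.of_forall fun t => ?_)
  have h5 : (1 + t ^ 2 : ℝ) ≠ 0 := by positivity
  have h6 : (z - t) ^ 2 + y ^ 2 ≠ 0 := by positivity
  change v t / (1 + t ^ 2) * (y * (1 + t ^ 2) / ((z - t) ^ 2 + y ^ 2)) =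
    y * v t / ((z - t) ^ 2 + y ^ 2)
  field_simp

lemma poisson_mono {v u : ℝ → ℝ} (hv : Admissible v) (hu : Admissible u) (h : ∀ t, v t ≤ u t)
    {z y : ℝ} (hy : 0 < y) : poisson v z y ≤ poisson u z y := by
  rw [poisson_eq_integral, poisson_eq_integral]
  refine mul_le_mul_of_nonneg_left ?_ (by positivity)
  refine integral_mono (integrable_pois hv hy) (integrable_pois hu hy) fun t => ?_
  have h6 : 0 < (z - t) ^ 2 + y ^ 2 := by positivity
  exact div_le_div_of_nonneg_right (mul_le_mul_of_nonneg_left (h t) hy.le) h6.le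

lemma adm_lgT {U : ℝ → ℝ} (hv : Admissible (lg U)) (M : ℝ) : Admissible (lgT U M) := by
  have h1 : Integrable (fun t : ℝ => -M * (1 + t ^ 2)⁻¹) volume :=
    integrable_inv_one_add_sq.const_mul _
  have h2 := Integrable.sup hv h1
  refine h2.congr (Eventually.of_forall fun t => ?_)
  change max (lg U t / (1 + t ^ 2)) (-M * (1 + t ^ 2)⁻¹) = max (lg U t) (-M) / (1 + t ^ 2)
  rw [← div_eq_mul_inv]
  exact max_div_div_right (by positivity) _ _

lemma nhds_abs {x z r : ℝ} (h : |x - z| < r) : ∀ᶠ x' in 𝓝 x, |x' - z| < r := by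
  have hc : Continuous fun x' : ℝ => |x' - z| := by fun_prop
  exact hc.continuousAt.eventually (Iio_mem_nhds h)

lemma measurable_cc (μ a c : ℝ) (U : ℝ → ℝ) : Measurable (cc μ a c U) := by
  refine measurable_of_Ioi fun t => ?_
  apply IsOpen.measurableSet
  rw [isOpen_iff_mem_nhds]
  intro x hx
  rw [mem_preimage, mem_Ioi] at hx
  unfold cc at hx
  rw [lt_iSup_iff] at hx
  obtain ⟨z, hx⟩ := hx
  rw [lt_iSup_iff] at hx
  obtain ⟨y, hx⟩ := hx
  rw [lt_iSup_iff] at hx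
  obtain ⟨⟨hy, hxz, h1, h2⟩, ht⟩ := hx
  filter_upwards [nhds_abs hxz] with x' hx'
  rw [mem_preimage, mem_Ioi]
  refine ht.trans_le ?_
  exact le_iSup_of_le z (le_iSup_of_le y (le_iSup_of_le ⟨hy, hx', h1, h2⟩ le_rfl))

/-- Choice of the dyadic interval. -/
lemma dyadic {b x0 β z y ε : ℝ} (hb : 0 < b) (hβ : 0 < β) (hy : 0 < y) (hε : ε ≤ β) :
    ∃ j : ℕ, x0 - 2 ^ j * β ≤ z - b * (y + ε) ∧ z + b * (y + ε) ≤ x0 + 2 ^ j * β ∧
      β / ‖(z : ℂ) + y * I - x0 + β * I‖ ≤ 2 * (1 + b) * (1 / 2) ^ j := by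
  classical
  have hN : |z - x0| ≤ ‖(z : ℂ) + y * I - x0 + β * I‖ := by
    have h := Complex.abs_re_le_norm ((z : ℂ) + y * I - x0 + β * I)
    simpa using h
  have hN2 : y + β ≤ ‖(z : ℂ) + y * I - x0 + β * I‖ := by
    have h := Complex.abs_im_le_norm ((z : ℂ) + y * I - x0 + β * I)
    simp only [add_im, sub_im, ofReal_im, mul_im, ofReal_re, I_im, mul_one, I_re, mul_zero,
      add_zero, zero_add, sub_zero] at h
    exact (le_abs_self _).trans h
  set N : ℝ := ‖(z : ℂ) + y * I - x0 + β * I‖ with hNd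
  have hNpos : 0 < N := by linarith
  have hex : ∃ j : ℕ, |z - x0| + b * (y + ε) ≤ 2 ^ j * β := by
    obtain ⟨j, hj⟩ := pow_unbounded_of_one_lt ((|z - x0| + b * (y + ε)) / β)
      (show (1 : ℝ) < 2 by norm_num)
    exact ⟨j, by rw [div_lt_iff₀ hβ] at hj; exact hj.le⟩
  have hj := Nat.find_spec hex
  refine ⟨Nat.find hex, ?_, ?_, ?_⟩
  · have := neg_abs_le (z - x0)
    linarith
  · have := le_abs_self (z - x0)
    linarith
  · rcases Nat.eq_zero_or_pos (Nat.find hex) with h0 | h0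
    · rw [h0, pow_zero, mul_one, div_le_iff₀ hNpos]
      have h2 : β ≤ 1 * N := by linarith
      refine h2.trans (mul_le_mul_of_nonneg_right ?_ hNpos.le)
      linarith
    · have h1 := Nat.find_min hex (Nat.sub_lt h0 Nat.one_pos)
      push Not at h1
      obtain ⟨m, hm⟩ : ∃ m, Nat.find hex = m + 1 := ⟨Nat.find hex - 1, by omega⟩
      rw [hm] at h1 ⊢
      rw [Nat.add_sub_cancel] at h1
      have h2 : 2 ^ m * β < (1 + b) * N := by
        have h3 : b * (y + ε) ≤ b * N := mul_le_mul_of_nonneg_left (by linarith) hb.le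
        linarith
      rw [div_le_iff₀ hNpos]
      have h3 : (2 : ℝ) * (1 + b) * (1 / 2) ^ (m + 1) * N = (1 + b) * N / 2 ^ m := by
        rw [pow_succ, one_div_pow]
        field_simp
      rw [h3, le_div_iff₀ (by positivity)]
      linarith

lemma rpow_est {p : ℝ} {k : ℕ} (hp : 0 < p) (hk : 2 ≤ k * p) {q D : ℝ} {j : ℕ} (hq : 0 ≤ q)
    (hD : 0 ≤ D) (h : q ≤ D * (1 / 2) ^ j) : (q ^ k) ^ p ≤ (D ^ k) ^ p * (1 / 4) ^ j := by
  have h1 : q ^ k ≤ D ^ k * ((1 / 2) ^ j) ^ k := by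
    rw [← mul_pow]
    exact pow_le_pow_left₀ hq h k
  have h2 : (q ^ k) ^ p ≤ (D ^ k * ((1 / 2) ^ j) ^ k) ^ p :=
    Real.rpow_le_rpow (by positivity) h1 hp.le
  refine h2.trans ?_
  rw [Real.mul_rpow (by positivity) (by positivity)]
  refine mul_le_mul_of_nonneg_left ?_ (by positivity)
  have h3 : (((1 / 2 : ℝ) ^ j) ^ k) ^ p = ((1 / 2 : ℝ) ^ j) ^ ((k : ℝ) * p) := by
    rw [Real.rpow_mul (by positivity), Real.rpow_natCast]
  have h4 : ((1 / 4 : ℝ)) ^ j = ((1 / 2 : ℝ) ^ j) ^ (2 : ℝ) := by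
    rw [Real.rpow_two, ← pow_mul, mul_comm j 2, pow_mul]
    norm_num
  rw [h3, h4]
  exact Real.rpow_le_rpow_of_exponent_ge (by positivity)
    (pow_le_one₀ (by norm_num) (by norm_num)) hk

/-- The majorant. -/
noncomputable def GG (b : ℝ) (U : ℝ → ℝ) (D x0 β : ℝ) (x : ℝ) : ℝ≥0∞ :=
  ∑' j : ℕ, ENNReal.ofReal (D * (1 / 4) ^ j) *
    (Icc (x0 - 2 ^ j * β) (x0 + 2 ^ j * β)).indicator
      (cc b (x0 - 2 ^ j * β) (x0 + 2 ^ j * β) U) x

lemma pointwise {b p : ℝ} {U : ℝ → ℝ} (hb : 0 < b) (hp : 0 < p) (hv : Admissible (lg U))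
    {k : ℕ} (hk : 2 ≤ k * p) {M ε x0 β : ℝ} (hε : 0 < ε) (hεβ : ε ≤ β) {F : ℝ → ℝ}
    (hF : ∀ z y : ℝ, 0 < y → |poisson F z y| ≤
      Real.exp (-poisson (lgT U M) z (y + ε) / p) *
        (β / ‖(z : ℂ) + y * I - x0 + β * I‖) ^ k) (x : ℝ) :
    (ntMax b F x) ^ p ≤ GG b U (((2 * (1 + b)) ^ k) ^ p) x0 β x := by
  have hβ : 0 < β := hε.trans_le hεβ
  have key : ntMax b F x ≤ (GG b U (((2 * (1 + b)) ^ k) ^ p) x0 β x) ^ (1 / p) := by
    unfold ntMax
    refine iSup_le fun z' => iSup_le fun y => iSup_le fun ⟨hy, hz'⟩ => ?_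
    set z : ℝ := x - z' with hz
    have hxz : |x - z| ≤ b * y := by
      have : x - z = z' := by rw [hz]; ring
      rw [this]
      exact hz'
    rw [one_div, ENNReal.le_rpow_inv_iff hp]
    obtain ⟨j, h1, h2, h3⟩ := dyadic (x0 := x0) (z := z) hb hβ hy hεβ
    refine le_trans ?_ (ENNReal.le_tsum j)
    have hye : 0 < y + ε := by linarith
    have hlt : |x - z| < b * (y + ε) := by
      have : b * y < b * (y + ε) := mul_lt_mul_of_pos_left (by linarith) hb
      linarith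
    have hxJ : x ∈ Icc (x0 - 2 ^ j * β) (x0 + 2 ^ j * β) := by
      rw [abs_lt] at hlt
      exact ⟨by linarith [hlt.1], by linarith [hlt.2]⟩
    rw [indicator_of_mem hxJ]
    have hcc : ENNReal.ofReal (Real.exp (-poisson (lg U) z (y + ε))) ≤
        cc b (x0 - 2 ^ j * β) (x0 + 2 ^ j * β) U x :=
      le_iSup_of_le z (le_iSup_of_le (y + ε) (le_iSup_of_le ⟨hye, hlt, h1, h2⟩ le_rfl))
    refine le_trans ?_ (mul_le_mul_right hcc _)
    rw [← ENNReal.ofReal_mul (by positivity), ENNReal.ofReal_rpow_of_nonneg (abs_nonneg _) hp.le]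
    refine ENNReal.ofReal_le_ofReal ?_
    have hq : 0 ≤ β / ‖(z : ℂ) + y * I - x0 + β * I‖ := by positivity
    calc |poisson F z y| ^ p
        ≤ (Real.exp (-poisson (lgT U M) z (y + ε) / p) *
          (β / ‖(z : ℂ) + y * I - x0 + β * I‖) ^ k) ^ p :=
          Real.rpow_le_rpow (abs_nonneg _) (hF z y hy) hp.le
      _ = Real.exp (-poisson (lgT U M) z (y + ε)) *
          ((β / ‖(z : ℂ) + y * I - x0 + β * I‖) ^ k) ^ p := by
          rw [Real.mul_rpow (Real.exp_pos _).le (by positivity), ← Real.exp_mul]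
          congr 2
          field_simp
      _ ≤ Real.exp (-poisson (lg U) z (y + ε)) *
          (((2 * (1 + b)) ^ k) ^ p * (1 / 4) ^ j) := by
          refine mul_le_mul ?_ (rpow_est hp hk hq (by positivity) h3) (by positivity)
            (Real.exp_pos _).le
          refine Real.exp_le_exp.2 (neg_le_neg ?_)
          exact poisson_mono hv (adm_lgT hv M) (fun t => le_max_left _ _) hye
      _ = _ := by ring
  calc (ntMax b F x) ^ p ≤ ((GG b U (((2 * (1 + b)) ^ k) ^ p) x0 β x) ^ (1 / p)) ^ p :=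
        ENNReal.rpow_le_rpow key hp.le
    _ = _ := by
        rw [← ENNReal.rpow_mul, one_div, inv_mul_cancel₀ hp.ne', ENNReal.rpow_one]

lemma integral_GG {b : ℝ} {U : ℝ → ℝ} (hU : IsWeight U) {C0 : ℝ≥0}
    (hC : ∀ a c : ℝ, a < c →
      ∫⁻ x in Icc a c, cc b a c U x * ENNReal.ofReal (U x) ≤ C0 * ENNReal.ofReal (c - a))
    {D x0 β : ℝ} (hD : 0 ≤ D) (hβ : 0 < β) :
    ∫⁻ x, GG b U D x0 β x * ENNReal.ofReal (U x) ≤
      ENNReal.ofReal (4 * D) * C0 * ENNReal.ofReal β := by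
  have hUm : AEMeasurable (fun x => ENNReal.ofReal (U x)) volume := weight_ofReal_aemeas hU
  have hm : ∀ j : ℕ, AEMeasurable (fun x => ENNReal.ofReal (D * (1 / 4) ^ j) *
      (Icc (x0 - 2 ^ j * β) (x0 + 2 ^ j * β)).indicator
        (cc b (x0 - 2 ^ j * β) (x0 + 2 ^ j * β) U) x * ENNReal.ofReal (U x)) volume := fun j =>
    ((((measurable_cc _ _ _ _).indicator measurableSet_Icc).const_mul _).aemeasurable).mul hUm
  have h1 : ∀ x, GG b U D x0 β x * ENNReal.ofReal (U x) =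
      ∑' j : ℕ, ENNReal.ofReal (D * (1 / 4) ^ j) *
      (Icc (x0 - 2 ^ j * β) (x0 + 2 ^ j * β)).indicator
        (cc b (x0 - 2 ^ j * β) (x0 + 2 ^ j * β) U) x * ENNReal.ofReal (U x) := fun x => by
    unfold GG
    rw [ENNReal.tsum_mul_right]
  simp only [h1]
  rw [lintegral_tsum hm]
  have h2 : ∀ j : ℕ, ∫⁻ x, ENNReal.ofReal (D * (1 / 4) ^ j) *
      (Icc (x0 - 2 ^ j * β) (x0 + 2 ^ j * β)).indicator
        (cc b (x0 - 2 ^ j * β) (x0 + 2 ^ j * β) U) x * ENNReal.ofReal (U x) ≤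
      (ENNReal.ofReal (2 * D) * C0 * ENNReal.ofReal β) * (2⁻¹ : ℝ≥0∞) ^ j := by
    intro j
    have h3 : ∀ x, ENNReal.ofReal (D * (1 / 4) ^ j) *
      (Icc (x0 - 2 ^ j * β) (x0 + 2 ^ j * β)).indicator
        (cc b (x0 - 2 ^ j * β) (x0 + 2 ^ j * β) U) x * ENNReal.ofReal (U x) =
        ENNReal.ofReal (D * (1 / 4) ^ j) *
        (Icc (x0 - 2 ^ j * β) (x0 + 2 ^ j * β)).indicator
        (fun x => cc b (x0 - 2 ^ j * β) (x0 + 2 ^ j * β) U x * ENNReal.ofReal (U x)) x := by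
      intro x
      by_cases hx : x ∈ Icc (x0 - 2 ^ j * β) (x0 + 2 ^ j * β)
      · rw [indicator_of_mem hx, indicator_of_mem hx, mul_assoc]
      · rw [indicator_of_notMem hx, indicator_of_notMem hx, mul_zero, zero_mul]
    simp only [h3]
    rw [lintegral_const_mul' _ _ ENNReal.ofReal_ne_top, lintegral_indicator measurableSet_Icc]
    have hpos : 0 < 2 ^ j * β := by positivity
    refine (mul_le_mul_right (hC _ _ (by linarith)) _).trans (le_of_eq ?_)
    have e1 : x0 + 2 ^ j * β - (x0 - 2 ^ j * β) = 2 * 2 ^ j * β := by ring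
    have e2 : (2⁻¹ : ℝ≥0∞) ^ j = ENNReal.ofReal ((1 / 2) ^ j) := by
      rw [ENNReal.ofReal_pow (by norm_num), one_div, ENNReal.ofReal_inv_of_pos (by norm_num)]
      norm_num
    rw [e1, e2]
    have e3 : ENNReal.ofReal (D * (1 / 4) ^ j) * (C0 * ENNReal.ofReal (2 * 2 ^ j * β)) =
        C0 * ENNReal.ofReal (D * (1 / 4) ^ j * (2 * 2 ^ j * β)) := by
      rw [ENNReal.ofReal_mul (p := D * (1 / 4) ^ j) (by positivity)]
      ring
    have e4 : ENNReal.ofReal (2 * D) * C0 * ENNReal.ofReal β * ENNReal.ofReal ((1 / 2) ^ j) =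
        C0 * ENNReal.ofReal (2 * D * β * (1 / 2) ^ j) := by
      rw [ENNReal.ofReal_mul (p := 2 * D * β) (by positivity),
        ENNReal.ofReal_mul (p := 2 * D) (by positivity)]
      ring
    rw [e3, e4]
    congr 2
    have e5 : ((1 : ℝ) / 4) ^ j = (1 / 2) ^ j * (1 / 2) ^ j := by
      rw [← mul_pow]
      norm_num
    have e6 : ((1 : ℝ) / 2) ^ j * 2 ^ j = 1 := by
      rw [← mul_pow]
      norm_num
    rw [e5]
    calc D * ((1 / 2) ^ j * (1 / 2) ^ j) * (2 * 2 ^ j * β)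
        = 2 * D * β * (1 / 2) ^ j * ((1 / 2) ^ j * 2 ^ j) := by ring
      _ = _ := by rw [e6, mul_one]
  refine (ENNReal.tsum_le_tsum h2).trans ?_
  rw [ENNReal.tsum_mul_left, ENNReal.tsum_geometric_two]
  refine le_of_eq ?_
  have e7 : ENNReal.ofReal (4 * D) = 2 * ENNReal.ofReal (2 * D) := by
    rw [show 4 * D = 2 * (2 * D) by ring, ENNReal.ofReal_mul (by norm_num)]
    norm_num
  rw [e7]
  ring

end TFUp

open TFUp in
theorem stTFUp (hTF : StTF) (_hPC : StPCont) : StTFUp := by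
  intro b p U hb hp hU hv hCC
  obtain ⟨C0, hC0⟩ := hCC
  obtain ⟨k, hk⟩ : ∃ k : ℕ, 2 ≤ (k : ℝ) * p := by
    refine ⟨⌈2 / p⌉₊, ?_⟩
    have := Nat.le_ceil (2 / p)
    rwa [div_le_iff₀ hp] at this
  set D : ℝ := ((2 * (1 + b)) ^ k) ^ p with hD
  have hD0 : 0 ≤ D := by positivity
  refine ⟨(4 * D).toNNReal * C0, k, fun M ε x0 β hε hεβ => ?_⟩
  have hβ : 0 < β := hε.trans_le hεβ
  obtain ⟨-, -, h3⟩ := hTF U M p ε x0 β k hv hp hε hβ
  have hmain : ∀ F : ℝ → ℝ, (∀ z y : ℝ, 0 < y → |poisson F z y| ≤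
      Real.exp (-poisson (lgT U M) z (y + ε) / p) *
        (β / ‖(z : ℂ) + y * I - x0 + β * I‖) ^ k) →
      ∫⁻ x, (ntMax b F x) ^ p * ENNReal.ofReal (U x) ≤
        (((4 * D).toNNReal * C0 : ℝ≥0) : ℝ≥0∞) * ENNReal.ofReal β := by
    intro F hF
    refine (lintegral_mono fun x => mul_le_mul_left
      (pointwise hb hp hv hk hε hεβ hF x) _).trans ?_
    refine (integral_GG hU hC0 hD0 hβ).trans (le_of_eq ?_)
    rw [ENNReal.coe_mul]
    rfl
  constructor
  · refine hmain _ fun z y hy => ?_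
    obtain ⟨e1, -, e3⟩ := h3 z y hy
    rw [e1, ← e3]
    exact abs_re_le_norm _
  · refine hmain _ fun z y hy => ?_
    obtain ⟨-, e2, e3⟩ := h3 z y hy
    rw [e2, ← e3]
    exact abs_im_le_norm _

end Pool.Agent.Work.MP_055a27_an.Crit
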