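import Pool.Agent.Work.MP_055a27_an.Crit.Stmts
import Pool.Agent.Work.MP_055a27_an.Thr.KE

/-!
# The weights `exp (|x| ^ g)` satisfy the Carleson condition
-/

open MeasureTheory Set Filter Topology Complex Metric
open scoped ENNReal NNReal

namespace Pool.Agent.Work.MP_055a27_an.Crit

open Pool.Agent.Work.MP_055a27_an.Thr (Ug T pw cg)

namespace Ex

lemma lg_Ug (g t : ℝ) : lg (Ug g) t = |t| ^ g := by
  unfold lg Ug
  rw [Real.log_exp]

lemma admissible_abs {g : ℝ} (h0 : 0 < g) (h1 : g < 1) :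
    Integrable (fun t : ℝ => |t| ^ g / (1 + t ^ 2)) volume := by
  have hfin : (Module.finrank ℝ ℝ : ℝ) < 2 - g := by
    rw [Module.finrank_self]
    push_cast
    linarith
  have h2 := integrable_rpow_neg_one_add_norm_sq (E := ℝ) (μ := volume) hfin
  refine h2.mono' ?_ (Eventually.of_forall fun t => ?_)
  · apply Continuous.aestronglyMeasurable
    apply Continuous.div
    · exact continuous_abs.rpow_const fun x => Or.inr h0.le
    · fun_prop
    · intro t
      positivity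
  · have hp : (0 : ℝ) < 1 + t ^ 2 := by positivity
    rw [Real.norm_of_nonneg (by positivity), Real.norm_eq_abs, sq_abs]
    have e1 : |t| ^ g ≤ (1 + t ^ 2) ^ (g / 2) := by
      have : |t| ^ g = (t ^ 2) ^ (g / 2) := by
        rw [← sq_abs, ← Real.rpow_natCast, ← Real.rpow_mul (abs_nonneg t)]
        congr 1
        push_cast
        ring
      rw [this]
      exact Real.rpow_le_rpow (sq_nonneg t) (by linarith) (by positivity)
    rw [div_le_iff₀ hp]
    have e2 : (1 + t ^ 2) ^ (-(2 - g) / 2) * (1 + t ^ 2) = (1 + t ^ 2) ^ (g / 2) := by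
      nth_rw 2 [← Real.rpow_one (1 + t ^ 2)]
      rw [← Real.rpow_add hp]
      congr 1
      ring
    rw [e2]
    exact e1

lemma adm_lg {g : ℝ} (h0 : 0 < g) (h1 : g < 1) : Admissible (lg (Ug g)) := by
  unfold Admissible
  simp_rw [lg_Ug]
  exact admissible_abs h0 h1

lemma adm_neg {g : ℝ} (h0 : 0 < g) (h1 : g < 1) : Admissible (fun t => -lg (Ug g) t) := by
  have h := (adm_lg h0 h1).neg
  unfold Admissible at h ⊢
  refine h.congr (Eventually.of_forall fun t => ?_)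
  simp [neg_div]

lemma poisson_neg (v : ℝ → ℝ) (s y : ℝ) : poisson (fun t => -v t) s y = -poisson v s y := by
  unfold poisson
  rw [← mul_neg, ← integral_neg]
  congr 1
  apply integral_congr_ae
  filter_upwards with x
  ring

lemma lintegral_kernel {s y : ℝ} (hy : 0 < y) :
    ∫⁻ t : ℝ, ENNReal.ofReal (y / ((s - t) ^ 2 + y ^ 2)) = ENNReal.ofReal Real.pi := by
  rw [← ofReal_integral_eq_lintegral_ofReal]
  · congr 1
    have e : (fun t : ℝ => y / ((s - t) ^ 2 + y ^ 2)) = fun t => y * (1 / ((s - t) ^ 2 + y ^ 2)) := by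
      funext t; ring
    rw [e, integral_const_mul, integral_kernel hy]
    field_simp
  · have := (integrable_kernel (z := s) hy).const_mul y
    refine this.congr (Eventually.of_forall fun t => ?_)
    simp only []
    ring
  · exact Eventually.of_forall fun t => by positivity

/-- The comparison function. -/
noncomputable def G (g : ℝ) (ζ : ℂ) : ℂ :=
  Complex.exp (pw g (ζ + (1 : ℝ) * I) / (Real.cos (Real.pi * g / 2) : ℂ))

lemma norm_G (g : ℝ) (ζ : ℂ) : ‖G g ζ‖ = Real.exp (cg g (ζ + (1 : ℝ) * I)) := by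
  unfold G cg
  rw [Complex.norm_exp, Complex.div_ofReal_re]

lemma G_diff (g : ℝ) {ζ : ℂ} (hζ : 0 ≤ ζ.im) : DifferentiableAt ℂ (G g) ζ := by
  have hw : 0 < (ζ + (1 : ℝ) * I).im := by rw [Thr.KE.im_shift]; linarith
  have h1 : DifferentiableAt ℂ (fun z : ℂ => z + (1 : ℝ) * I) ζ := by fun_prop
  have h2 : DifferentiableAt ℂ (fun z : ℂ => pw g (z + (1 : ℝ) * I)) ζ :=
    DifferentiableAt.comp (g := pw g) (f := fun z : ℂ => z + (1 : ℝ) * I) ζ
      (Thr.hasDerivAt_pw g hw).differentiableAt h1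
  exact (h2.div_const _).cexp

lemma growth {g : ℝ} (h0 : 0 < g) (h1 : g < 1) {ζ : ℂ} (hζ : 0 ≤ ζ.im) :
    ‖G g ζ‖ ≤ Real.exp (1 / Real.cos (Real.pi * g / 2)) * (1 + ‖ζ‖) ^ 2 *
      Real.exp (1 / Real.cos (Real.pi * g / 2) * ‖ζ‖ ^ g) := by
  have hk0 := Thr.cos_half_pos h0 h1
  set k := Real.cos (Real.pi * g / 2) with hk
  have hw : 0 < (ζ + (1 : ℝ) * I).im := by rw [Thr.KE.im_shift]; linarith
  have hn : ‖ζ + (1 : ℝ) * I‖ ≤ ‖ζ‖ + 1 := by
    refine (norm_add_le _ _).trans ?_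
    simp
  rw [norm_G]
  have e1 : (pw g (ζ + (1 : ℝ) * I)).re ≤ ‖ζ‖ ^ g + 1 := by
    calc (pw g (ζ + (1 : ℝ) * I)).re ≤ ‖pw g (ζ + (1 : ℝ) * I)‖ := Complex.re_le_norm _
      _ = ‖ζ + (1 : ℝ) * I‖ ^ g := Thr.norm_pw hw
      _ ≤ (‖ζ‖ + 1) ^ g := Real.rpow_le_rpow (norm_nonneg _) hn h0.le
      _ ≤ ‖ζ‖ ^ g + 1 ^ g := Thr.KE.rpow_add_le (norm_nonneg _) zero_le_one h0.le h1.le
      _ = _ := by rw [Real.one_rpow]
  have e2 : cg g (ζ + (1 : ℝ) * I) ≤ 1 / k + 1 / k * ‖ζ‖ ^ g := by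
    unfold cg
    rw [← hk, div_le_iff₀ hk0]
    have : (1 / k + 1 / k * ‖ζ‖ ^ g) * k = ‖ζ‖ ^ g + 1 := by
      field_simp
      ring
    rw [this]
    exact e1
  calc Real.exp (cg g (ζ + (1 : ℝ) * I)) ≤ Real.exp (1 / k + 1 / k * ‖ζ‖ ^ g) :=
        Real.exp_le_exp.2 e2
    _ = Real.exp (1 / k) * 1 * Real.exp (1 / k * ‖ζ‖ ^ g) := by rw [Real.exp_add, mul_one]
    _ ≤ _ := by
        gcongr
        exact one_le_pow₀ (by linarith [norm_nonneg ζ])

lemma main (hSm : StSm) (hCone : Thr.StCone) (hLoss : Thr.StLoss) {g μ : ℝ} (h0 : 0 < g)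
    (h1 : g < 1) (hμ : 0 < μ) (hμT : μ < T g) : ∃ K : ℝ, 0 < K ∧ ∀ x z y : ℝ, 0 < y →
    |x - z| ≤ μ * y → Real.exp (-poisson (lg (Ug g)) z y) ≤ K * Real.exp (-|x| ^ g) := by
  obtain ⟨C, hC, hL⟩ := hLoss g h0 h1
  obtain ⟨δ, hδ, hc⟩ := hCone g μ h0 h1 hμ hμT
  refine ⟨Real.exp C * Real.pi, by positivity, ?_⟩
  intro x z y hy hxz
  have h2 := hSm g _ _ (G g) (fun t => -lg (Ug g) t) h0 h1 (fun ζ hζ => G_diff g hζ)
    (fun ζ hζ => growth h0 h1 hζ) (adm_neg h0 h1) z y hy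
  have h3 : ∫⁻ t : ℝ, ENNReal.ofReal (y / ((z - t) ^ 2 + y ^ 2)) *
        ENNReal.ofReal (‖G g t‖ * Real.exp (-lg (Ug g) t)) ≤
        ENNReal.ofReal (Real.exp C * Real.pi) := by
    calc _ ≤ ∫⁻ t : ℝ, ENNReal.ofReal (y / ((z - t) ^ 2 + y ^ 2)) *
          ENNReal.ofReal (Real.exp C) := by
          apply lintegral_mono
          intro t
          refine mul_le_mul' le_rfl (ENNReal.ofReal_le_ofReal ?_)
          rw [norm_G, lg_Ug, ← Real.exp_add]
          apply Real.exp_le_exp.2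
          have h4 := hL t 1 one_pos
          have h5 : ‖(t : ℂ) + ((1 : ℝ) : ℂ) * I‖ ^ (g - 1) ≤ 1 := by
            apply Real.rpow_le_one_of_one_le_of_nonpos _ (by linarith)
            have h6 := Complex.abs_im_le_norm ((t : ℂ) + ((1 : ℝ) : ℂ) * I)
            rw [Thr.KE.im_shift] at h6
            simpa using h6
          nlinarith
      _ = _ := by
          rw [lintegral_mul_const' _ _ ENNReal.ofReal_ne_top, lintegral_kernel hy,
            mul_comm, ← ENNReal.ofReal_mul (Real.exp_nonneg _)]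
  have h4 : ‖G g (z + y * I)‖ * Real.exp (poisson (fun t => -lg (Ug g) t) z y) ≤
      Real.exp C * Real.pi :=
    (ENNReal.ofReal_le_ofReal_iff (by positivity)).1 (h2.trans h3)
  rw [poisson_neg, norm_G] at h4
  have h5 : |x| ^ g ≤ cg g ((z : ℂ) + y * I + (1 : ℝ) * I) := by
    have h6 := hc x z (y + 1) (by linarith) (hxz.trans (by nlinarith))
    have h7 : (z : ℂ) + ((y + 1 : ℝ) : ℂ) * I = (z : ℂ) + y * I + (1 : ℝ) * I := by
      push_cast; ring
    rw [h7] at h6
    have h8 : 0 ≤ δ * (y + 1) * ‖(z : ℂ) + y * I + (1 : ℝ) * I‖ ^ (g - 1) := by positivity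
    linarith
  have h6 : Real.exp (|x| ^ g) * Real.exp (-poisson (lg (Ug g)) z y) ≤ Real.exp C * Real.pi :=
    (mul_le_mul_of_nonneg_right (Real.exp_le_exp.2 h5) (Real.exp_nonneg _)).trans h4
  rw [Real.exp_neg (|x| ^ g), ← div_eq_mul_inv, le_div_iff₀ (Real.exp_pos _), mul_comm]
  exact h6

end Ex

open Ex in
theorem stEx (hSm : StSm) (hCone : Thr.StCone) (hLoss : Thr.StLoss) : StEx := by
  intro g μ h0 h1 hμ hμT
  refine ⟨adm_lg h0 h1, ?_⟩
  obtain ⟨K, hK, h⟩ := main hSm hCone hLoss h0 h1 hμ hμT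
  refine ⟨K.toNNReal, ?_⟩
  intro a c hac
  calc ∫⁻ x in Icc a c, cc μ a c (Ug g) x * ENNReal.ofReal (Ug g x)
      ≤ ∫⁻ _x in Icc a c, ENNReal.ofReal K := by
        apply lintegral_mono
        intro x
        have h2 : cc μ a c (Ug g) x ≤ ENNReal.ofReal (K * Real.exp (-|x| ^ g)) := by
          unfold cc
          refine iSup_le fun z => iSup_le fun y => iSup_le fun hh => ?_
          exact ENNReal.ofReal_le_ofReal (h x z y hh.1 hh.2.1.le)
        calc cc μ a c (Ug g) x * ENNReal.ofReal (Ug g x)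
            ≤ ENNReal.ofReal (K * Real.exp (-|x| ^ g)) * ENNReal.ofReal (Ug g x) := by
              gcongr
          _ = ENNReal.ofReal K := by
              rw [← ENNReal.ofReal_mul (by positivity)]
              congr 1
              unfold Thr.Ug
              rw [mul_assoc, ← Real.exp_add, neg_add_cancel, Real.exp_zero, mul_one]
    _ = _ := by
        rw [setLIntegral_const, Real.volume_Icc]
        rfl

end Pool.Agent.Work.MP_055a27_an.Crit
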