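import Pool.Agent.Work.MP_055a27_an.Crit.Stmts

/-! # Change of aperture for general weights -/

open MeasureTheory Set Filter Topology Complex Metric
open scoped ENNReal NNReal

namespace Pool.Agent.Work.MP_055a27_an.Crit

namespace AperG

/-- Horizontal mean value inequality. -/
lemma horiz {f : ℝ → ℝ} (hf : Admissible f) {x z y B : ℝ} (hy : 0 < y)
    (hB : ∀ s : ℝ, |x - s| ≤ |x - z| → ‖dschw f (s + y * I)‖ ≤ B) :
    |poisson f z y - poisson f x y| ≤ B * |z - x| := by
  have h1 : ∀ s ∈ uIcc x z, HasDerivWithinAt (fun s : ℝ => schw f ((s : ℂ) + y * I))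
      (dschw f (s + y * I)) (uIcc x z) s := by
    intro s _
    have h2 : HasDerivAt (schw f) (dschw f (s + y * I)) ((s : ℂ) + y * I) :=
      hasDerivAt_schw hf (by simpa using hy)
    have h3 : HasDerivAt (fun s : ℂ => s + y * I) 1 (s : ℂ) := (hasDerivAt_id _).add_const _
    have h4 := (h2.comp (s : ℂ) h3).comp_ofReal
    simpa using h4.hasDerivWithinAt
  have h5 := (convex_uIcc x z).norm_image_sub_le_of_norm_hasDerivWithin_le h1
    (fun s hs => hB s (by
      rw [abs_sub_comm x s, abs_sub_comm x z]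
      exact abs_sub_left_of_mem_uIcc hs)) left_mem_uIcc right_mem_uIcc
  rw [poisson_eq_re hf hy, poisson_eq_re hf hy, ← Complex.sub_re]
  refine (Complex.abs_re_le_norm _).trans ?_
  rw [← Real.norm_eq_abs (z - x)]
  exact h5

lemma meas_nt {f : ℝ → ℝ} (hf : Admissible f) (b : ℝ) :
    Measurable (fun t : ℝ => ntMax b f t) := by
  have e2 : ∀ x, ntMax b f x = NT (schw f) b x := fun x => ntMax_eq hf
  simp_rw [e2]
  exact measurable_NT (schw_diff hf) b

lemma aem_lg {v : ℝ → ℝ} (hv : Admissible v) : AEMeasurable v volume := by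
  have h1 : AEMeasurable (fun t : ℝ => v t / (1 + t ^ 2)) volume := by
    have h0 : Integrable (fun t : ℝ => v t / (1 + t ^ 2)) volume := hv
    exact h0.aestronglyMeasurable.aemeasurable
  have h2 : AEMeasurable (fun t : ℝ => v t / (1 + t ^ 2) * (1 + t ^ 2)) volume :=
    h1.mul (by fun_prop)
  refine h2.congr (Filter.Eventually.of_forall fun t => ?_)
  have : (1 : ℝ) + t ^ 2 ≠ 0 := by positivity
  simp only
  field_simp

lemma aem_hU {U f : ℝ → ℝ} (hw : Admissible (lg U)) (hf : Admissible f) (b p : ℝ) :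
    AEMeasurable (hU U b p f) volume := by
  unfold Crit.hU
  refine (meas_nt hf b).aemeasurable.mul ?_
  have h1 : AEMeasurable (lg U) volume := aem_lg hw
  exact ENNReal.measurable_ofReal.comp_aemeasurable
    (Real.measurable_exp.comp_aemeasurable (h1.div_const p))

lemma hU_pow {U f : ℝ → ℝ} {b p : ℝ} (hp : 0 < p) {t : ℝ} (ht : 0 < U t) :
    (hU U b p f t) ^ p = (ntMax b f t) ^ p * ENNReal.ofReal (U t) := by
  unfold Crit.hU
  rw [ENNReal.mul_rpow_of_nonneg _ _ hp.le, ENNReal.ofReal_rpow_of_pos (Real.exp_pos _)]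
  congr 2
  rw [← Real.exp_mul]
  unfold lg
  rw [div_mul_cancel₀ _ hp.ne', Real.exp_log ht]

/-- the Carleson supremum -/
noncomputable def V (μ p : ℝ) (U : ℝ → ℝ) (k : ℝ → ℝ≥0∞) (x : ℝ) : ℝ≥0∞ :=
  ⨆ (z : ℝ) (y : ℝ) (_ : 0 < y ∧ |x - z| < μ * y),
    ENNReal.ofReal (Real.exp (-poisson (lg U) z y)) * (Pk k z y) ^ p

lemma le_V {μ p : ℝ} (hp : 0 < p) {U : ℝ → ℝ} {k : ℝ → ℝ≥0∞} {x z y : ℝ} (hy : 0 < y)
    (hz : |x - z| < μ * y) :
    ENNReal.ofReal (Real.exp (-poisson (lg U) z y / p)) * Pk k z y ≤ (V μ p U k x) ^ (1 / p) := by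
  have h1 : ENNReal.ofReal (Real.exp (-poisson (lg U) z y)) * (Pk k z y) ^ p ≤ V μ p U k x := by
    unfold V
    exact le_iSup_of_le z (le_iSup_of_le y (le_iSup_of_le ⟨hy, hz⟩ le_rfl))
  have h2 : ENNReal.ofReal (Real.exp (-poisson (lg U) z y)) * (Pk k z y) ^ p =
      (ENNReal.ofReal (Real.exp (-poisson (lg U) z y / p)) * Pk k z y) ^ p := by
    rw [ENNReal.mul_rpow_of_nonneg _ _ hp.le, ENNReal.ofReal_rpow_of_pos (Real.exp_pos _),
      ← Real.exp_mul, div_mul_cancel₀ _ hp.ne']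
  rw [h2] at h1
  rw [one_div]
  exact (ENNReal.le_rpow_inv_iff hp).2 h1

lemma two_pow {u v : ℝ≥0∞} {p : ℝ} (hp : 0 < p) :
    (u + v) ^ p ≤ ENNReal.ofReal (2 ^ p) * (u ^ p + v ^ p) := by
  have h12 : u + v ≤ 2 * max u v := by
    rw [two_mul]
    exact add_le_add (le_max_left _ _) (le_max_right _ _)
  refine (ENNReal.rpow_le_rpow h12 hp.le).trans ?_
  rw [ENNReal.mul_rpow_of_nonneg _ _ hp.le]
  gcongr ?_ * ?_
  · rw [← ENNReal.ofReal_rpow_of_pos (by norm_num)]
    simp
  · rcases le_total u v with h | h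
    · rw [max_eq_right h]; exact le_add_self
    · rw [max_eq_left h]; exact le_self_add

end AperG

open AperG in
theorem stAperG (hKEG : StKEG) (hCar : StCar) : StAperG := by
  intro μ b b' p U hb hb' hbμ hp hW hUpos hlg hCC
  have hp0 : 0 < p := by linarith
  have hμ : 0 < μ := by linarith
  obtain ⟨C1, hC1, h1⟩ := hKEG b p hb hp0
  obtain ⟨C2, h2⟩ := hCar μ p U hμ hp hW hlg hCC
  set ε : ℝ := (1 - b' / μ) / 2 with hε
  have hr1 : b' / μ < 1 := (div_lt_one hμ).2 hbμ
  have hr0 : 0 < b' / μ := by positivity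
  have hε0 : 0 < ε := by rw [hε]; linarith
  have hε1 : ε < 1 := by rw [hε]; linarith
  have hεμ : b' < μ * (1 - ε) := by
    have e1 : 1 - ε = (1 + b' / μ) / 2 := by rw [hε]; ring
    rw [e1]
    have e2 : μ * ((1 + b' / μ) / 2) = (μ + b') / 2 := by field_simp
    rw [e2]
    linarith
  have grad : ∀ f : ℝ → ℝ, Admissible f → ∀ x s y : ℝ, 0 < y → |x - s| ≤ b' * y →
      ENNReal.ofReal ‖dschw f (s + y * I)‖ ≤
        ENNReal.ofReal (C1 / (ε * y)) * (V μ p U (hU U b p f) x) ^ (1 / p) := by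
    intro f hf x s y hy hs
    have ha : 0 < ε * y := by positivity
    have hay : ε * y < y := by nlinarith
    refine (h1 U hlg f hf s y (ε * y) ha hay).trans ?_
    rw [ENNReal.ofReal_mul (by positivity), mul_assoc]
    gcongr
    refine le_V hp0 (by linarith) ?_
    have e1 : y - ε * y = (1 - ε) * y := by ring
    rw [e1, ← mul_assoc]
    calc |x - s| ≤ b' * y := hs
      _ < μ * (1 - ε) * y := by gcongr
  set K : ℝ := b' * C1 / ε with hK
  have hK0 : 0 < K := by positivity
  have pw : ∀ f : ℝ → ℝ, Admissible f → ∀ x : ℝ,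
      ntMax b' f x ≤ ntMax b f x + ENNReal.ofReal K * (V μ p U (hU U b p f) x) ^ (1 / p) := by
    intro f hf x
    set Mx : ℝ≥0∞ := (V μ p U (hU U b p f) x) ^ (1 / p) with hMx
    by_cases hMt : Mx = ∞
    · rw [hMt, ENNReal.mul_top (by simpa using hK0)]
      simp
    unfold ntMax
    refine iSup_le fun z0 => iSup_le fun y => iSup_le fun hy => ?_
    obtain ⟨hy0, hz0⟩ := hy
    set z : ℝ := x - z0 with hz
    have hxz : |x - z| ≤ b' * y := by rw [hz, sub_sub_cancel]; exact hz0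
    set R : ℝ≥0∞ := ENNReal.ofReal (C1 / (ε * y)) * Mx with hR
    have hRt : R ≠ ∞ := ENNReal.mul_ne_top ENNReal.ofReal_ne_top hMt
    have hB : ∀ s : ℝ, |x - s| ≤ |x - z| → ‖dschw f (s + y * I)‖ ≤ R.toReal := by
      intro s hs
      have h6 := grad f hf x s y hy0 (hs.trans hxz)
      exact (ENNReal.ofReal_le_iff_le_toReal hRt).1 h6
    have h7 := horiz hf hy0 hB
    have h8 : |poisson f z y| ≤ |poisson f x y| + R.toReal * (b' * y) := by
      have h9 : |poisson f z y| ≤ |poisson f x y| + |poisson f z y - poisson f x y| := by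
        have := abs_sub_abs_le_abs_sub (poisson f z y) (poisson f x y)
        linarith
      have h10 : R.toReal * |z - x| ≤ R.toReal * (b' * y) := by
        rw [abs_sub_comm z x]
        gcongr
      linarith
    refine (ENNReal.ofReal_le_ofReal h8).trans ?_
    rw [ENNReal.ofReal_add (abs_nonneg _) (by positivity),
      ENNReal.ofReal_mul ENNReal.toReal_nonneg, ENNReal.ofReal_toReal hRt]
    refine add_le_add ?_ ?_
    · exact le_ntMax hy0 (by rw [sub_self, abs_zero]; positivity)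
    · rw [hR, mul_right_comm, ← ENNReal.ofReal_mul (by positivity)]
      have e1 : C1 / (ε * y) * (b' * y) = K := by
        rw [hK]
        field_simp
      rw [e1]
  refine ⟨Real.toNNReal (2 ^ p) * (1 + Real.toNNReal (K ^ p) * C2), fun f hf => ?_⟩
  have hkm := aem_hU hlg hf b p
  have hUm : AEMeasurable (fun x => ENNReal.ofReal (U x)) volume :=
    ENNReal.measurable_ofReal.comp_aemeasurable hW.2.aestronglyMeasurable.aemeasurable
  have hpow : ∫⁻ x, (hU U b p f x) ^ p = ∫⁻ x, (ntMax b f x) ^ p * ENNReal.ofReal (U x) := by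
    refine lintegral_congr_ae ?_
    filter_upwards [hUpos] with t ht
    exact hU_pow hp0 ht
  have hcar : ∫⁻ x, V μ p U (hU U b p f) x * ENNReal.ofReal (U x) ≤
      C2 * ∫⁻ x, (ntMax b f x) ^ p * ENNReal.ofReal (U x) := by
    rw [← hpow]
    exact h2 _ hkm
  have hm1 : AEMeasurable (fun x => (ntMax b f x) ^ p * ENNReal.ofReal (U x)) volume :=
    ((meas_nt hf b).pow_const p).aemeasurable.mul hUm
  calc ∫⁻ x, (ntMax b' f x) ^ p * ENNReal.ofReal (U x)
      ≤ ∫⁻ x, ENNReal.ofReal (2 ^ p) * ((ntMax b f x) ^ p * ENNReal.ofReal (U x) +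
          ENNReal.ofReal (K ^ p) * (V μ p U (hU U b p f) x * ENNReal.ofReal (U x))) := by
        refine lintegral_mono fun x => ?_
        have h3 := (ENNReal.rpow_le_rpow (pw f hf x) hp0.le).trans (two_pow hp0)
        rw [ENNReal.mul_rpow_of_nonneg _ _ hp0.le, ← ENNReal.rpow_mul, one_div,
          inv_mul_cancel₀ hp0.ne', ENNReal.rpow_one, ENNReal.ofReal_rpow_of_pos hK0] at h3
        calc (ntMax b' f x) ^ p * ENNReal.ofReal (U x) ≤
            (ENNReal.ofReal (2 ^ p) * ((ntMax b f x) ^ p +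
              ENNReal.ofReal (K ^ p) * V μ p U (hU U b p f) x)) * ENNReal.ofReal (U x) := by
              gcongr
          _ = _ := by ring
    _ = ENNReal.ofReal (2 ^ p) * ((∫⁻ x, (ntMax b f x) ^ p * ENNReal.ofReal (U x)) +
          ENNReal.ofReal (K ^ p) * ∫⁻ x, V μ p U (hU U b p f) x * ENNReal.ofReal (U x)) := by
        rw [lintegral_const_mul' _ _ ENNReal.ofReal_ne_top,
          lintegral_add_left' hm1,
          lintegral_const_mul' _ _ ENNReal.ofReal_ne_top]
    _ ≤ ENNReal.ofReal (2 ^ p) * ((∫⁻ x, (ntMax b f x) ^ p * ENNReal.ofReal (U x)) +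
          ENNReal.ofReal (K ^ p) *
            (C2 * ∫⁻ x, (ntMax b f x) ^ p * ENNReal.ofReal (U x))) := by
        gcongr
    _ = _ := by
        push_cast
        rw [ENNReal.ofReal, ENNReal.ofReal]
        ring

end Pool.Agent.Work.MP_055a27_an.Crit
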