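import Pool.Agent.Work.MP_055a27_an.Crit.Stmts
import Pool.Agent.Work.MP_055a27_an.WeakStar

/-!
# Sufficiency: weak `A_∞` and the Carleson condition imply the area estimate
-/

set_option autoImplicit false

open MeasureTheory Set Filter Topology Complex Metric
open scoped ENNReal NNReal

namespace Pool.Agent.Work.MP_055a27_an.Crit

theorem stSuff (hA : StAperG) : StSuff := by
  intro lam μ b p U hlam hlm hb hp hU hpos hadm hweak hCC
  have hp0 : 0 < p := lt_trans one_pos hp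
  have hb' : 0 < (lam + μ) / 2 := by linarith
  obtain ⟨C₁, h₁⟩ := weak_star hU hweak hlam (show lam < (lam + μ) / 2 by linarith) hp0
  obtain ⟨C₂, h₂⟩ := hA μ b ((lam + μ) / 2) p U hb hb' (by linarith) hp hU hpos hadm hCC
  refine ⟨C₁ * C₂, fun f hf => (h₁ f hf).trans ?_⟩
  calc (C₁ : ℝ≥0∞) * ∫⁻ x, (ntMax ((lam + μ) / 2) f x) ^ p * ENNReal.ofReal (U x)
      ≤ C₁ * (C₂ * ∫⁻ x, (ntMax b f x) ^ p * ENNReal.ofReal (U x)) := by gcongr; exact h₂ f hf
    _ = ((C₁ * C₂ : ℝ≥0) : ℝ≥0∞) * ∫⁻ x, (ntMax b f x) ^ p * ENNReal.ofReal (U x) := by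
        rw [ENNReal.coe_mul, mul_assoc]

end Pool.Agent.Work.MP_055a27_an.Crit
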